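import Pool.Agent.W117.GH.Asm
import Pool.Agent.W174.GH.EX
import Pool.Agent.W308.GH.SM
import Pool.Agent.W947.GH.UN
import Pool.Agent.W947.GH.VS
import Pool.Agent.W947.GH.ST
import Pool.Agent.W125.GH.EL
import Pool.Agent.W427.GH.FA
import Pool.Agent.W613.GH.LIM
import Pool.Agent.W613.GH.TR
import Pool.Agent.W613.GH.TA
import Pool.Agent.W753.GH.SH
import Pool.Agent.W753.GH.Q
import Pool.Agent.W120.GH.VP
import Pool.Agent.W120.GH.HI
import Pool.Agent.W120.GH.BO
import Pool.Agent.W628.GH.VA
import Pool.Agent.W150.GH.SD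
import Pool.Agent.W239.GH.MA
import Pool.Agent.W214.GH.IN

/-!
# Finite-energy gravitating Abelian Higgs strings beyond the symmetric bound

Problem MP_e9f444_mp, Q1. Definitions (conformal factor, gauge potential, Higgs field, the
energy density `H`, the stress tensor `T`, the curvature `K`, the coupled equations, finite
energy, `N`-string solutions) are in `Pool.Agent.W117.GH.Defs`.
-/

set_option autoImplicit false

open scoped ContDiff

namespace Pool.Agent.Results.MP_e9f444_mp.BeyondSymmetricBound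

open Pool.Agent.W117.GH

/-- For all integers `k ≥ 2`, `m ≥ 1` and all `ε, G > 0` with `4 π ε² G k m = k + 1`, the number
`N = k m` exceeds `1 / (2 π ε² G)` and there is a finite-energy `N`-string solution of the coupled
Einstein and Abelian Higgs equations on the plane; its strings are at the `k`-th roots of unity,
each with multiplicity `m`. -/
theorem result (k m : ℕ) (hk : 2 ≤ k) (hm : 1 ≤ m) (ε G : ℝ) (hε : 0 < ε) (hG : 0 < G)
    (hN : 4 * Real.pi * ε ^ 2 * G * (k * m) = k + 1) :
    1 / (2 * Real.pi * ε ^ 2 * G) < ((k * m : ℕ) : ℝ) ∧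
      ∃ X : Fields, X.IsSolution ε G ∧ X.FiniteEnergy ε ∧ X.IsNString (k * m) ∧
        ∃ ψ : ℂ → ℂ, ContDiff ℝ ∞ ψ ∧ (∀ z, ψ z ≠ 0) ∧
          ∀ z, X.phi z = (z ^ k - 1) ^ m * ψ z := by
  have hEX : PropEX := Pool.Agent.W174.GH.main
  have hSM : PropSM := Pool.Agent.W308.GH.SM.main
  have hUN : PropUN := Pool.Agent.W947.GH.UN.main
  have hIE : PropIE := Pool.Agent.W125.GH.ie
  have hEL : PropEL := Pool.Agent.W125.GH.el
  have hFA : PropFA := Pool.Agent.W427.GH.main
  have hLIM : PropLIM := Pool.Agent.W613.GHLIM.main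
  have hTR : PropTR := Pool.Agent.W613.GHTR.main
  have hTA : PropTA := Pool.Agent.W613.GHTA.main hLIM hTR
  have hSH : PropSH := Pool.Agent.W753.GH.SH.main hEX hSM hFA hEL hLIM hTR hUN
  have hQ : PropQ := Pool.Agent.W753.GH.Q.main hEX hSM hUN hIE
  have hVS : PropVS := Pool.Agent.W947.GH.VS.main
  have hVP : PropVP := Pool.Agent.W120.GH.main
  have hVA : PropVA := Pool.Agent.W628.GH.main
  have hSD : PropSD := Pool.Agent.W150.GH.main
  have hST : PropST := Pool.Agent.W947.GH.ST.main
  have hMA : PropMA := Pool.Agent.W239.GHMA.main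
  have hHI : PropHI := Pool.Agent.W120.GH.HI.main
  have hBO : PropBO := Pool.Agent.W120.GH.BO.main hST hHI
  have hIN : PropIN := Pool.Agent.W214.GH.main
  exact final hSH hTA hQ hVS hVP hVA hSD hST hMA hHI hBO hIN k m hk hm ε G hε hG hN

end Pool.Agent.Results.MP_e9f444_mp.BeyondSymmetricBound
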